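import Pool.Agent.H24.KTH.Top

/-!
# (RED): restriction of a family to its heavy caps
-/

set_option autoImplicit false

namespace Pool.Agent.H91.KTH

open Finset Real
open Pool.Agent.H49.Ent Pool.Agent.H32.Dense Pool.Agent.H24.KTH

/-- The law of two copies depends only on the partition of the conditioning variable. -/
lemma dbl_congr {Ω β β' : Type*} [Fintype Ω] (p : Ω → ℝ) {b : Ω → β} {b' : Ω → β'}
    (h : ∀ x y, b x = b y ↔ b' x = b' y) : dbl p b = dbl p b' := by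
  classical
  funext z
  obtain ⟨x, y⟩ := z
  have hl : law p b (b x) = law p b' (b' x) := by
    unfold law
    refine Finset.sum_congr rfl fun ω _ => ?_
    by_cases h1 : b ω = b x
    · rw [if_pos h1, if_pos ((h ω x).mp h1)]
    · rw [if_neg h1, if_neg (fun h2 => h1 ((h ω x).mpr h2))]
  unfold dbl glue
  by_cases h1 : b x = b y
  · rw [if_pos h1, if_pos ((h x y).mp h1), hl]
  · rw [if_neg h1, if_neg (fun h2 => h1 ((h x y).mpr h2))]

lemma CH_level_le {Ω T : Type*} [Fintype Ω] {p : Ω → ℝ} (hp : ∀ ω, 0 ≤ p ω) (h1 : ∑ ω, p ω = 1)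
    {N : ℕ} (w : Ω → ℕ) (hw : ∀ ω, w ω ≤ N) (W : Ω → T) : CH p w W ≤ Real.log (N + 1) := by
  have h := CH_le_card hp h1 w W (fun _ => Finset.range (N + 1))
    (fun ω _ => Finset.mem_range.mpr (Nat.lt_succ_of_le (hw ω)))
  rw [Ex_const h1, Finset.card_range] at h
  push_cast at h
  exact h

theorem red (hHC : HCStmt) : REDStmt := by
  intro d N hN ε hε
  obtain ⟨J₀, hJ₀⟩ := hHC d N hN ε hε
  refine ⟨Real.log (N + 1), J₀, ?_⟩
  intro J hJ Ω _ ζ p Z v u τ hF
  have hp := hF.hp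
  have h1 := hF.h1
  obtain ⟨w, hw, hA, hB⟩ := hJ₀ J hJ Ω ((ζ × ℤ) × (Fin d → ℤ)) p (av (2 ^ J) Z v u τ) v hp h1
    (fun ω hω k => by have := hF.hv ω hω k; push_cast at this; exact this)
  -- the entropy of the time
  have hT : CH p τ (bv Z v) ≤ Real.log (N + 1) +
      CH p τ (bv (fun ω => (cap J (lev J N (w ω)) (v ω), w ω, Z ω)) v) := by
    have e1 := CH_le_add hp τ w (bv Z v)
    have e2 := CH_level_le hp h1 w hw (bv Z v)
    have e3 : CH p τ (fun ω => (w ω, bv Z v ω)) =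
        CH p τ (bv (fun ω => (cap J (lev J N (w ω)) (v ω), w ω, Z ω)) v) := by
      refine CH_congr hp ?_ ?_ ?_ ?_
      · intro ω ω' _ _ h
        exact (Prod.ext_iff.mp h).1
      · intro ω ω' _ _ h
        exact (Prod.ext_iff.mp h).1
      · intro ω ω' _ _ h
        simp only [bv, Prod.mk.injEq] at h ⊢
        obtain ⟨a, b, c⟩ := h
        rw [a, b, c]
        simp
      · intro ω ω' _ _ h
        simp only [bv, Prod.mk.injEq] at h ⊢
        tauto
    linarith
  refine ⟨w, hw, ⟨hF.hM, hp, h1, hF.hv, ?_, hF.hτ⟩, ?_, ?_, ?_⟩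
  · intro ω ω' a b h
    refine hF.hu ω ω' a b ?_
    simp only [Prod.mk.injEq] at h ⊢
    tauto
  · unfold Kf
    linarith
  · have : dbl p (av (2 ^ J) (fun ω => (cap J (lev J N (w ω)) (v ω), w ω, Z ω)) v u τ) =
        dbl p (fun ω => (av (2 ^ J) Z v u τ ω, w ω, cap J (lev J N (w ω)) (v ω))) := by
      refine dbl_congr p fun x y => ?_
      simp only [av, Prod.mk.injEq]
      tauto
    unfold Yf
    rw [this]
    exact hB
  · -- the slice
    set X : Ω → Fin d → ℤ := fun ω => rd (pos (2 ^ J) (u ω) (v ω) (τ ω)) with hX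
    set D : Ω → Fin d → ℤ := fun ω => cap J (lev J N (w ω)) (v ω) with hD
    have c1 : CH p X (fun ω => (w ω, Z ω, τ ω)) ≤ Sf (2 ^ J) p Z v u τ :=
      CH_mono_cond hp (fun ω ω' _ _ h => (Prod.ext_iff.mp h).2)
    have c2 := CH_bayes hp X D (fun ω => (w ω, Z ω, τ ω))
    have c3 : CH p X (fun ω => (D ω, w ω, Z ω, τ ω)) =
        Sf (2 ^ J) p (fun ω => (D ω, w ω, Z ω)) v u τ := by
      refine CH_congr hp ?_ ?_ ?_ ?_ <;>
      · intro ω ω' _ _ h
        simp only [Prod.mk.injEq] at h ⊢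
        tauto
    have c4 : CH p D (fun ω => (X ω, w ω, Z ω, τ ω)) =
        CH p D (fun ω => (av (2 ^ J) Z v u τ ω, w ω)) := by
      refine CH_congr hp ?_ ?_ ?_ ?_ <;>
      · intro ω ω' _ _ h
        simp only [av, Prod.mk.injEq] at h ⊢
        tauto
    have c5 := CH_bayes hp D τ (fun ω => (w ω, Z ω))
    have c6 : CH p D (fun ω => (τ ω, w ω, Z ω)) = CH p D (fun ω => (w ω, Z ω, τ ω)) := by
      refine CH_congr hp ?_ ?_ ?_ ?_ <;>
      · intro ω ω' _ _ h
        simp only [Prod.mk.injEq] at h ⊢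
        tauto
    have c7 := CH_time_le hp h1 hF.hτ (fun ω => (w ω, Z ω))
    have c8 : CH p τ (bv (fun ω => (D ω, w ω, Z ω)) v) ≤ CH p τ (fun ω => (D ω, w ω, Z ω)) :=
      CH_mono_cond hp (fun ω ω' _ _ h => (Prod.ext_iff.mp h).2)
    have c9 : Kf (2 ^ J) p (bv Z v) τ = Real.log ((2 ^ J : ℕ) : ℝ) - CH p τ (bv Z v) := rfl
    rw [c3, c4] at c2
    rw [c6] at c5
    linarith

end Pool.Agent.H91.KTH
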