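import Pool.Agent.H12.KTH.Stmts

/-!
# (UFD): the second coefficient is uniform
-/

set_option autoImplicit false

namespace Pool.Agent.H91.KTH

open Finset Real
open Pool.Agent.H49.Ent Pool.Agent.H32.Dense
open Pool.KTH

variable {d J : ℕ}

lemma Ex_gp_nonneg {Ω : Type} [Fintype Ω] {q : Ω → ℝ} (hq : ∀ w, 0 ≤ q w) (x y : Ω → ℤ) :
    0 ≤ Ex q (fun w => gp J (x w) (y w)) := by
  refine Ex_nonneg hq fun w _ => ?_
  unfold gp
  refine Real.log_nonneg ?_
  have : (0 : ℝ) ≤ 2 ^ J / max 1 |(x w : ℝ) - y w| := by positivity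
  linarith

lemma Ex_log_nonneg {Ω : Type} [Fintype Ω] {q : Ω → ℝ} (hq : ∀ w, 0 ≤ q w) (f : Ω → ℝ)
    (hf : ∀ w, 0 ≤ f w) : 0 ≤ Ex q (fun w => Real.log (1 + f w)) :=
  Ex_nonneg hq fun w _ => Real.log_nonneg (by linarith [hf w])

lemma er_ge {e : ℝ} (he : 0 ≤ e) : e ≤ er J e ∧ 1 ≤ er J e := by
  unfold er
  have : 0 ≤ Real.log ((J : ℝ) + 2) := Real.log_nonneg (by
    have : (0 : ℝ) ≤ J := Nat.cast_nonneg J
    linarith)
  constructor <;> linarith

/-- The first coefficient, given the second one and the ratio. -/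
lemma c_of_c₂ (F : Cf d J) {T : Type*} (W : F.Ω → T)
    (hW : ∀ w w', 0 < F.q w → 0 < F.q w' → W w = W w' → F.k₂ w = F.k₂ w') :
    CH F.q F.c (fun w => (F.c₂ w, W w)) ≤ 1 + Ex F.q (fun w => Real.log (1 + |F.k₂ w|⁻¹)) := by
  have h1 := CH_le_int F.hq F.h1 F.c (fun w => (F.c₂ w, W w)) (fun w => |F.k₂ w|⁻¹)
    (fun w w' a b e => by
      have e1 := (Prod.ext_iff.mp e).1
      have e2 := hW w w' a b (Prod.ext_iff.mp e).2
      have e3 : ⌊F.k₂ w * (F.c w : ℝ)⌋ = ⌊F.k₂ w * (F.c w' : ℝ)⌋ := by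
        have e4 : ⌊F.k₂ w * (F.c w : ℝ)⌋ = ⌊F.k₂ w' * (F.c w' : ℝ)⌋ := e1
        rw [e4, e2]
      have := floor_eq_close (kap_pos (F.s w) (F.tr w) (F.ta w)) e3
      push_cast
      exact this)
  refine h1.trans ?_
  calc Ex F.q (fun w => Real.log (2 * |F.k₂ w|⁻¹ + 1)) ≤
      Ex F.q (fun w => 1 + Real.log (1 + |F.k₂ w|⁻¹)) :=
        Ex_mono F.hq fun w _ => log_two_mul_add (by positivity)
    _ = 1 + Ex F.q (fun w => Real.log (1 + |F.k₂ w|⁻¹)) := by
        rw [Ex_add, Ex_const F.h1]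

/-- The arithmetic of the slope. -/
lemma slope_close {M H s c x x' ta : ℝ} (hM : 1 ≤ M) (hH : ta ≤ H) (hH2 : H ≤ ta + 2)
    (hs : 0 ≤ s ∧ s ≤ M) (hta : 0 ≤ ta ∧ ta ≤ M) (hx : 0 ≤ x ∧ x ≤ M) (hx' : 0 ≤ x' ∧ x' ≤ M)
    (hHs : H - s ≠ 0)
    (h : |(x + (H - x) / (H - s) * c) - (x' + (H - x') / (H - s) * c)| ≤ 1) :
    |x - x'| ≤ 6 * (M / max 1 |ta - (s + c)|) := by
  have hxx : |x - x'| ≤ M := abs_le.mpr ⟨by linarith [hx.1, hx'.2], by linarith [hx.2, hx'.1]⟩
  rcases le_total |ta - (s + c)| 4 with h4 | h4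
  · have h5 : max 1 |ta - (s + c)| ≤ 4 := max_le (by norm_num) h4
    have h6 : (0 : ℝ) < max 1 |ta - (s + c)| := lt_of_lt_of_le one_pos (le_max_left _ _)
    have h7 : M / 4 ≤ M / max 1 |ta - (s + c)| := by gcongr
    linarith
  · have h5 : max 1 |ta - (s + c)| = |ta - (s + c)| := max_eq_right (by linarith)
    rw [h5]
    have hpos : 0 < |ta - (s + c)| := by linarith
    have e1 : (x + (H - x) / (H - s) * c) - (x' + (H - x') / (H - s) * c) =
        (x - x') * ((H - s - c) / (H - s)) := by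
      field_simp
      ring
    rw [e1, abs_mul, abs_div] at h
    have h6 : |ta - (s + c)| / 2 ≤ |H - s - c| := by
      have h7 : |ta - (s + c)| ≤ |H - s - c| + 2 := by
        calc |ta - (s + c)| = |(H - s - c) + (ta - H)| := by congr 1; ring
          _ ≤ |H - s - c| + |ta - H| := abs_add_le _ _
          _ ≤ |H - s - c| + 2 := by
            have : |ta - H| ≤ 2 := abs_le.mpr ⟨by linarith, by linarith⟩
            linarith
      linarith
    have h8 : |H - s| ≤ 3 * M := abs_le.mpr ⟨by linarith [hs.2, hta.1], by linarith [hs.1, hta.2]⟩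
    have h9 : 0 < |H - s| := abs_pos.mpr hHs
    have h10 : |x - x'| * |H - s - c| ≤ |H - s| := by
      have h11 : |x - x'| * (|H - s - c| / |H - s|) = |x - x'| * |H - s - c| / |H - s| := by ring
      rw [h11, div_le_one h9] at h
      exact h
    have h12 : |x - x'| * (|ta - (s + c)| / 2) ≤ 3 * M :=
      (mul_le_mul_of_nonneg_left h6 (abs_nonneg _)).trans (h10.trans h8)
    have h13 : 6 * (M / |ta - (s + c)|) = 6 * M / |ta - (s + c)| := by ring
    rw [h13, le_div_iff₀ hpos]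
    linarith

/-- The time `tr`, given the time of `Y`, the first coefficient and `s`, `ta`. -/
lemma tr_of_TY (F : Cf d J) {T : Type*} (W : F.Ω → T)
    (hW : ∀ w w', 0 < F.q w → 0 < F.q w' → W w = W w' → F.s w = F.s w' ∧ F.ta w = F.ta w' ∧
      F.c w = F.c w') :
    CH F.q F.tr (fun w => (F.TY w, W w)) ≤ F.eg F.ta F.TO + 5 := by
  have hM : (1 : ℝ) ≤ 2 ^ J := one_le_pow₀ (by norm_num)
  -- the choice of `hat`
  set h : F.Ω → ℤ := fun w => hat (F.s w) (F.tr w) (F.ta w) - F.ta w with hh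
  have a1 := CH_le_add F.hq F.tr h (fun w => (F.TY w, W w))
  have a2 : CH F.q h (fun w => (F.TY w, W w)) ≤ 2 := by
    have a3 := CH_le_card F.hq F.h1 h (fun w => (F.TY w, W w)) (fun _ => {0, 1, 2}) (by
      intro w _
      obtain ⟨_, _, h3, h4⟩ := hat_spec (F.s w) (F.tr w) (F.ta w)
      simp only [hh, Finset.mem_insert, Finset.mem_singleton]
      omega)
    refine a3.trans ?_
    rw [Ex_const F.h1]
    have : ((({0, 1, 2} : Finset ℤ).card : ℕ) : ℝ) = 3 := by simp
    rw [this]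
    have := log_le_of_pow (x := 3) (n := 2) (by norm_num) (by norm_num)
    exact_mod_cast this
  have a4 : CH F.q F.tr (fun w => (h w, F.TY w, W w)) ≤ F.eg F.ta F.TO + 3 := by
    have a5 := CH_le_int F.hq F.h1 F.tr (fun w => (h w, F.TY w, W w))
      (fun w => 6 * (2 ^ J / max 1 |(F.ta w : ℝ) - F.TO w|))
      (fun w w' a b e => by
        simp only [Prod.mk.injEq] at e
        obtain ⟨e1, e2, e3⟩ := e
        obtain ⟨f1, f2, f3⟩ := hW w w' a b e3
        have f4 : hat (F.s w) (F.tr w) (F.ta w) = hat (F.s w') (F.tr w') (F.ta w') := by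
          simp only [hh] at e1
          omega
        obtain ⟨g1, g2, g3, g4⟩ := hat_spec (F.s w) (F.tr w) (F.ta w)
        have hs := F.hs w a
        have hta := F.hta w a
        have htr := F.htr w a
        have htr' := F.htr w' b
        have hs1 : (0 : ℝ) ≤ F.s w := by exact_mod_cast hs.1
        have hs2 : (F.s w : ℝ) ≤ 2 ^ J := by exact_mod_cast hs.2.le
        have hta1 : (0 : ℝ) ≤ F.ta w := by exact_mod_cast hta.1
        have hta2 : (F.ta w : ℝ) ≤ 2 ^ J := by exact_mod_cast hta.2.le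
        have htr1 : (0 : ℝ) ≤ F.tr w := by exact_mod_cast htr.1
        have htr2 : (F.tr w : ℝ) ≤ 2 ^ J := by exact_mod_cast htr.2.le
        have htr1' : (0 : ℝ) ≤ F.tr w' := by exact_mod_cast htr'.1
        have htr2' : (F.tr w' : ℝ) ≤ 2 ^ J := by exact_mod_cast htr'.2.le
        have g3' : (F.ta w : ℝ) ≤ hat (F.s w) (F.tr w) (F.ta w) := by exact_mod_cast g3
        have g4' : (hat (F.s w) (F.tr w) (F.ta w) : ℝ) ≤ F.ta w + 2 := by exact_mod_cast g4
        have g5 : ((hat (F.s w) (F.tr w) (F.ta w) : ℝ)) - F.s w ≠ 0 :=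
          sub_ne_zero.mpr (by exact_mod_cast g1)
        have key := slope_close (M := 2 ^ J) (H := (hat (F.s w) (F.tr w) (F.ta w) : ℝ))
          (s := F.s w) (c := F.c w) (x := F.tr w) (x' := F.tr w') (ta := F.ta w) hM g3' g4'
          ⟨hs1, hs2⟩ ⟨hta1, hta2⟩ ⟨htr1, htr2⟩ ⟨htr1', htr2'⟩ g5 (by
            -- the two values have the same integral part
            have e4 : F.tr w + ⌊F.k₂ w * (F.c w : ℝ)⌋ = F.tr w' + ⌊F.k₂ w' * (F.c w' : ℝ)⌋ := e2
            have e5 : ⌊(F.tr w : ℝ) + F.k₂ w * (F.c w : ℝ)⌋ =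
                ⌊(F.tr w' : ℝ) + F.k₂ w' * (F.c w' : ℝ)⌋ := by
              rw [Int.floor_intCast_add, Int.floor_intCast_add, e4]
            have e6 := (Int.abs_sub_lt_one_of_floor_eq_floor e5).le
            have e7 : F.k₂ w = ((hat (F.s w) (F.tr w) (F.ta w) : ℝ) - F.tr w) /
                ((hat (F.s w) (F.tr w) (F.ta w) : ℝ) - F.s w) := rfl
            have e8 : F.k₂ w' = ((hat (F.s w) (F.tr w) (F.ta w) : ℝ) - F.tr w') /
                ((hat (F.s w) (F.tr w) (F.ta w) : ℝ) - F.s w) := by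
              rw [f4, f1]
              rfl
            rw [e7, e8, ← f3] at e6
            exact e6)
        push_cast
        unfold Cf.TO
        push_cast
        exact key)
    refine a5.trans ?_
    calc Ex F.q (fun w => Real.log (2 * (6 * (2 ^ J / max 1 |(F.ta w : ℝ) - F.TO w|)) + 1)) ≤
        Ex F.q (fun w => gp J (F.ta w) (F.TO w) + 3) := by
          refine Ex_mono F.hq fun w _ => ?_
          have y0 : (0 : ℝ) ≤ 2 ^ J / max 1 |(F.ta w : ℝ) - F.TO w| := by positivity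
          calc Real.log (2 * (6 * (2 ^ J / max 1 |(F.ta w : ℝ) - F.TO w|)) + 1) ≤
              Real.log (12 * (1 + 2 ^ J / max 1 |(F.ta w : ℝ) - F.TO w|)) := by
                apply Real.log_le_log (by positivity)
                linarith
            _ = Real.log 12 + gp J (F.ta w) (F.TO w) := by
                rw [Real.log_mul (by norm_num) (by positivity)]
                rfl
            _ ≤ _ := by
                have := log_le_of_pow (x := 12) (n := 3) (by norm_num) (by norm_num)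
                push_cast at this
                linarith
      _ = F.eg F.ta F.TO + 3 := by
          rw [Ex_add, Ex_const F.h1]
          rfl
  linarith

theorem ufd_thm (hUFC : UFCStmt) (hTMS : TMSStmt) (hKPS : KPSStmt) (hUPT : UPTStmt) :
    UFDStmt := by
  intro d
  obtain ⟨⟨C1, C10, hC1⟩, -, -⟩ := hUFC d
  obtain ⟨hT, C2, C20, hC2⟩ := hTMS d
  obtain ⟨C3, C30, hC3⟩ := hKPS d
  obtain ⟨⟨C4, C40, hC4⟩, ⟨C5, C50, hC5⟩, -, -⟩ := hUPT d
  -- the facts
  have fct : ∀ (J : ℕ) (F : Cf d J) (L sb e : ℝ), F.Ok L sb e →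
      (lm J - CH F.q F.c (fun w => (F.v3 w, (F.t w, F.s w, F.tr w, F.ta w), F.Z w)) ≤
        C1 * er J e) ∧
      (lm J - e ≤ CH F.q F.tr (fun w => (F.v3 w, (F.t w, F.s w, F.ta w), F.Z w))) ∧
      (lm J - e ≤ CH F.q F.ta (fun w => (F.v3 w, (F.t w, F.s w, F.tr w), F.Z w))) ∧
      (lm J - CH F.q F.c₂ (fun w => (F.v3 w, (F.t w, F.s w, F.tr w, F.ta w), F.Z w)) ≤
        (C1 + C3 + 1) * er J e) ∧
      F.eg F.ta F.TO ≤ C2 * er J e ∧
      (∀ (T : Type) (W : F.Ω → T), Det F.q W F.Z → CH F.q F.c W ≤ lm J + C4 * er J e) ∧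
      (∀ (T : Type) (W : F.Ω → T), Det F.q W F.Z → CH F.q F.c₂ W ≤ lm J + C5 * er J e) := by
    intro J F L sb e hF
    obtain ⟨t1, t2, t3, t4⟩ := hT J F L sb e hF
    have g1 := hC1 J F L sb e hF
    have g2 := hC2 J F L sb e hF
    have g3 := hC3 J F L sb e hF
    have g4 := hC4 J F L sb e hF
    have g5 := hC5 J F L sb e hF
    obtain ⟨er1, er2⟩ := er_ge (J := J) hF.e0
    have hc : lm J - CH F.q F.c (fun w => (F.v3 w, (F.t w, F.s w, F.tr w, F.ta w), F.Z w)) ≤
        C1 * er J e := by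
      have := CH_mono_cond F.hq (X := F.c)
        (W' := fun w => (F.v3 w, (F.t w, F.s w, F.t₁ w, F.tr w, F.ta w), F.Z w))
        (W := fun w => (F.v3 w, (F.t w, F.s w, F.tr w, F.ta w), F.Z w)) (by
          intro w w' _ _ h
          simp only [Prod.mk.injEq] at h ⊢
          tauto)
      linarith
    refine ⟨hc, ?_, ?_, ?_, ?_, ?_, ?_⟩
    · have := CH_mono_cond F.hq (X := F.tr)
        (W' := fun w => (F.v3 w, (F.t w, F.s w), (F.t₁ w, F.r w, F.ta w), F.Z w))
        (W := fun w => (F.v3 w, (F.t w, F.s w, F.ta w), F.Z w)) (by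
          intro w w' _ _ h
          simp only [Prod.mk.injEq] at h ⊢
          tauto)
      linarith
    · have := CH_mono_cond F.hq (X := F.ta)
        (W' := fun w => (F.v3 w, (F.t w, F.s w), (F.t₁ w, F.r w, F.tr w), F.Z w))
        (W := fun w => (F.v3 w, (F.t w, F.s w, F.tr w), F.Z w)) (by
          intro w w' _ _ h
          simp only [Prod.mk.injEq] at h ⊢
          tauto)
      linarith
    · have b1 := CH_le_add F.hq F.c F.c₂
        (fun w => (F.v3 w, (F.t w, F.s w, F.tr w, F.ta w), F.Z w))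
      have b2 := c_of_c₂ F (fun w => (F.v3 w, (F.t w, F.s w, F.tr w, F.ta w), F.Z w)) (by
        intro w w' _ _ h
        simp only [Prod.mk.injEq] at h
        obtain ⟨_, ⟨_, h1, h2, h3⟩, _⟩ := h
        unfold Cf.k₂
        rw [h1, h2, h3])
      have n1 := Ex_log_nonneg F.hq (fun w => |F.k₁ w|) (fun w => abs_nonneg _)
      have n2 := Ex_log_nonneg F.hq (fun w => |F.k₁ w|⁻¹) (fun w => by positivity)
      have n3 := Ex_log_nonneg F.hq (fun w => |F.k₂ w|) (fun w => abs_nonneg _)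
      have b3 : Ex F.q (fun w => Real.log (1 + |F.k₂ w|⁻¹)) ≤ C3 * er J e := by linarith
      nlinarith
    · have n1 := Ex_gp_nonneg (J := J) F.hq F.t F.s
      have n2 := Ex_gp_nonneg (J := J) F.hq F.t₁ F.t
      have n3 := Ex_gp_nonneg (J := J) F.hq F.t₁ F.s
      have n4 := Ex_gp_nonneg (J := J) F.hq F.r F.t
      have n5 := Ex_gp_nonneg (J := J) F.hq F.r F.s
      have n6 := Ex_gp_nonneg (J := J) F.hq F.r F.t₁
      have n7 := Ex_gp_nonneg (J := J) F.hq F.tr F.s
      have n8 := Ex_gp_nonneg (J := J) F.hq F.ta F.s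
      have n9 := Ex_gp_nonneg (J := J) F.hq F.ta F.tr
      unfold Cf.eg at g2 ⊢
      linarith
    · intro T W hW
      have := CH_mono_cond F.hq (X := F.c) hW
      linarith
    · intro T W hW
      have := CH_mono_cond F.hq (X := F.c₂) hW
      linarith
  refine ⟨⟨C1 + C3 + 2, by linarith, ?_⟩, ⟨C1 + C3 + 1, by linarith, ?_⟩,
    ⟨C1 + C3 + C5 + 2, by linarith, ?_⟩, ⟨2 * C1 + C2 + C4 + 6, by linarith, ?_⟩⟩
  · intro J F L sb e hF
    obtain ⟨a1, a2, a3, a4, a5, a6, a7⟩ := fct J F L sb e hF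
    obtain ⟨er1, er2⟩ := er_ge (J := J) hF.e0
    have c1 := CH_chain F.hq F.c₂ F.tr (fun w => (F.v3 w, (F.t w, F.s w, F.ta w), F.Z w))
    have c2 : CH F.q (fun w => (F.c₂ w, F.tr w))
        (fun w => (F.v3 w, (F.t w, F.s w, F.ta w), F.Z w)) =
        CH F.q (fun w => (F.tr w, F.c₂ w)) (fun w => (F.v3 w, (F.t w, F.s w, F.ta w), F.Z w)) := by
      refine CH_congr F.hq ?_ ?_ ?_ ?_ <;>
      · intro w w' _ _ h
        simp only [Prod.mk.injEq] at h ⊢
        tauto
    have c3 : CH F.q F.c₂ (fun w => (F.tr w, F.v3 w, (F.t w, F.s w, F.ta w), F.Z w)) =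
        CH F.q F.c₂ (fun w => (F.v3 w, (F.t w, F.s w, F.tr w, F.ta w), F.Z w)) := by
      refine CH_congr F.hq ?_ ?_ ?_ ?_ <;>
      · intro w w' _ _ h
        simp only [Prod.mk.injEq] at h ⊢
        tauto
    show 2 * lm J - CH F.q (fun w => (F.tr w, F.c₂ w))
      (fun w => (F.v3 w, (F.t w, F.s w, F.ta w), F.Z w)) ≤ (C1 + C3 + 2) * er J e
    nlinarith
  · intro J F L sb e hF
    obtain ⟨a1, a2, a3, a4, a5, a6, a7⟩ := fct J F L sb e hF
    have := CH_mono_cond F.hq (X := F.c₂)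
      (W' := fun w => (F.v3 w, (F.t w, F.s w, F.tr w, F.ta w), F.Z w))
      (W := fun w => (F.v3 w, (F.t w, F.s w, F.tr w), F.Z w)) (by
        intro w w' _ _ h
        simp only [Prod.mk.injEq] at h ⊢
        tauto)
    show lm J - CH F.q F.c₂ (fun w => (F.v3 w, (F.t w, F.s w, F.tr w), F.Z w)) ≤
      (C1 + C3 + 1) * er J e
    linarith
  · intro J F L sb e hF
    obtain ⟨a1, a2, a3, a4, a5, a6, a7⟩ := fct J F L sb e hF
    obtain ⟨er1, er2⟩ := er_ge (J := J) hF.e0
    have c1 := CH_bayes F.hq F.ta F.c₂ (fun w => (F.v3 w, (F.t w, F.s w, F.tr w), F.Z w))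
    have c2 : CH F.q F.ta (fun w => (F.c₂ w, F.v3 w, (F.t w, F.s w, F.tr w), F.Z w)) =
        CH F.q F.ta (fun w => (F.v3 w, (F.t w, F.s w, F.tr w, F.c₂ w), F.Z w)) := by
      refine CH_congr F.hq ?_ ?_ ?_ ?_ <;>
      · intro w w' _ _ h
        simp only [Prod.mk.injEq] at h ⊢
        tauto
    have c3 : CH F.q F.c₂ (fun w => (F.ta w, F.v3 w, (F.t w, F.s w, F.tr w), F.Z w)) =
        CH F.q F.c₂ (fun w => (F.v3 w, (F.t w, F.s w, F.tr w, F.ta w), F.Z w)) := by
      refine CH_congr F.hq ?_ ?_ ?_ ?_ <;>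
      · intro w w' _ _ h
        simp only [Prod.mk.injEq] at h ⊢
        tauto
    have c4 := a7 _ (fun w => (F.v3 w, (F.t w, F.s w, F.tr w), F.Z w)) (by
      intro w w' _ _ h
      simp only [Prod.mk.injEq] at h
      exact h.2.2)
    show lm J - CH F.q F.ta (fun w => (F.v3 w, (F.t w, F.s w, F.tr w, F.c₂ w), F.Z w)) ≤
      (C1 + C3 + C5 + 2) * er J e
    nlinarith
  · intro J F L sb e hF
    obtain ⟨a1, a2, a3, a4, a5, a6, a7⟩ := fct J F L sb e hF
    obtain ⟨er1, er2⟩ := er_ge (J := J) hF.e0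
    -- `c` is uniform
    have c0 : CH F.q F.c (fun w => (F.v3 w, (F.t w, F.s w, F.tr w, F.ta w), F.Z w)) ≤
        CH F.q F.c (fun w => (F.v3 w, (F.t w, F.s w, F.ta w), F.Z w)) :=
      CH_mono_cond F.hq (by
        intro w w' _ _ h
        simp only [Prod.mk.injEq] at h ⊢
        tauto)
    -- `tr` is uniform given `c`
    have c1 := CH_bayes F.hq F.tr F.c (fun w => (F.v3 w, (F.t w, F.s w, F.ta w), F.Z w))
    have c2 : CH F.q F.c (fun w => (F.tr w, F.v3 w, (F.t w, F.s w, F.ta w), F.Z w)) =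
        CH F.q F.c (fun w => (F.v3 w, (F.t w, F.s w, F.tr w, F.ta w), F.Z w)) := by
      refine CH_congr F.hq ?_ ?_ ?_ ?_ <;>
      · intro w w' _ _ h
        simp only [Prod.mk.injEq] at h ⊢
        tauto
    have c3 := a6 _ (fun w => (F.v3 w, (F.t w, F.s w, F.ta w), F.Z w)) (by
      intro w w' _ _ h
      simp only [Prod.mk.injEq] at h
      exact h.2.2)
    -- the time of `Y`
    have c4 := CH_le_add F.hq F.tr F.TY
      (fun w => (F.c w, F.v3 w, (F.t w, F.s w, F.ta w), F.Z w))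
    have c5 := tr_of_TY F (fun w => (F.c w, F.v3 w, (F.t w, F.s w, F.ta w), F.Z w)) (by
      intro w w' _ _ h
      simp only [Prod.mk.injEq] at h
      tauto)
    have c6 := CH_chain F.hq F.TY F.c (fun w => (F.v3 w, (F.t w, F.s w, F.ta w), F.Z w))
    have c7 : CH F.q (fun w => (F.TY w, F.c w))
        (fun w => (F.v3 w, (F.t w, F.s w, F.ta w), F.Z w)) =
        CH F.q (fun w => (F.c w, F.TY w)) (fun w => (F.v3 w, (F.t w, F.s w, F.ta w), F.Z w)) := by
      refine CH_congr F.hq ?_ ?_ ?_ ?_ <;>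
      · intro w w' _ _ h
        simp only [Prod.mk.injEq] at h ⊢
        tauto
    show 2 * lm J - CH F.q (fun w => (F.c w, F.TY w))
      (fun w => (F.v3 w, (F.t w, F.s w, F.ta w), F.Z w)) ≤ (2 * C1 + C2 + C4 + 6) * er J e
    nlinarith

end Pool.Agent.H91.KTH
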